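import Pool.Agent.H42.Enh2

open Cardinal Pool.Agent.H42.EnhDefs

theorem Pool.Agent.Results.MP_434b1a_gt.Iff.result :
    (∃ (n : ℕ) (M : Type) (_ : TopologicalSpace M), ENH n M ∧ OH M < E n M) ↔
      ∃ m : ℕ, covB m < 𝔠 := by
  refine ⟨fun ⟨n, M, _, h, c⟩ => ?_, fun ⟨m, h⟩ => ⟨_, Pool.Agent.H42.Enh2.lower h⟩⟩
  by_contra! d
  exact c.not_ge (Pool.Agent.H42.Enh1.upper h d)
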